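import Pool.Agent.P.MP_7e6317_an.Main

namespace Pool.Agent.Results.MP_7e6317_an.BernsteinLimit

open Filter Topology Pool.Agent.P.MP_7e6317_an

theorem result :
    (∀ l : ℝ, 0 < l → l < 1 →
      (∃ c : ℝ, 0 < c ∧ IsLeast {a | ∃ G, TypeOne G ∧ Near (phi l) G a 0} c ∧
        ∀ α : ℝ, 0 < α →
          Tendsto (fun n : ℕ => bestE n α (phi l) / (c / (α * n))) atTop (𝓝 1)) ∧
      (∃ c : ℝ, 0 < c ∧ IsLeast {a | ∃ G, TypeOne G ∧ Near (psi l) G a 0} c ∧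
        ∀ α : ℝ, 0 < α →
          Tendsto (fun n : ℕ => bestE n α (psi l) / (c / (α * n))) atTop (𝓝 1)) ∧
      (∃ c : ℝ, 0 < c ∧
        IsLeast {a | ∃ H, TypeOne H ∧ (∀ z, H (-z) = H z) ∧ NearSq l H a} c ∧
        ∀ α : ℝ, 0 < α →
          Tendsto (fun n : ℕ => bestE n α (theta l) / (c / (α * (n : ℝ) ^ 2))) atTop (𝓝 1))) ∧
    ∀ α : ℝ, 0 < α → ∃ c : ℝ, 0 < c ∧
      IsLeast {a | ∃ G, TypeOne G ∧ Near (phi 1) G a (a / α)} c ∧
      Tendsto (fun n : ℕ => bestE n α (phi 1) / (c / (α * n))) atTop (𝓝 1) ∧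
      (∀ b : ℝ, (∃ G, TypeOne G ∧ ∀ x : ℝ, |(G x).re - (|x|)| ≤ b) → c / α ≤ b) ∧
      ∃ G, TypeOne G ∧ ∀ x : ℝ, |(G x).re - (|x|)| ≤ (1 + α) * (c / α) := by
  refine ⟨fun l h0 h1 => ⟨?_, ?_, ?_⟩, fun α hα => ?_⟩
  · exact uniform_const (x := fun α n => bestE n α (phi l)) (w := fun α n => α * n)
      fun α hα => phi_limit h0 h1 hα
  · exact uniform_const (x := fun α n => bestE n α (psi l)) (w := fun α n => α * n)
      fun α hα => psi_limit h0 h1 hα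
  · exact uniform_const (x := fun α n => bestE n α (theta l))
      (w := fun α n => α * (n : ℝ) ^ 2) fun α hα => theta_limit h0 h1 hα
  · obtain ⟨c, h1, h2, h3⟩ := abs_limit hα
    exact ⟨c, h1, h2, ratio h1 h3, abs_compare hα h2⟩

end Pool.Agent.Results.MP_7e6317_an.BernsteinLimit
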