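import Pool.Agent.P.MP_7e6317_an.D.FinPhi
import Pool.Agent.P.MP_7e6317_an.D.FinPsi
import Pool.Agent.P.MP_7e6317_an.D.FinTheta
import Pool.Agent.P.MP_7e6317_an.D.FinAbs

namespace Pool.Agent.Results.MP_7e6317_an.Duality

open Pool.Agent.P.MP_7e6317_an

theorem result :
    (∀ l : ℝ, 0 < l → l < 1 →
      (∃ c : ℝ, 0 < c ∧ IsLeast {a | ∃ G, TypeOne G ∧ Near (phi l) G a 0} c ∧
        IsGreatest {a | 0 < a ∧ ∃ y, Adm (l - 1) y ∧ a ≤ y 0 ∧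
          ∑' k, wt y k * |(y k - (-1) ^ k * a) ^ l - y k ^ l| ≤ mass l y} c ∧
        ∃ (G : ℂ → ℂ) (y : ℕ → ℝ), TypeOne G ∧ Near (phi l) G c 0 ∧
          (∀ G', TypeOne G' → Near (phi l) G' c 0 → G' = G) ∧ Adm (l - 1) y ∧ c ≤ y 0 ∧
          (∀ k, (G (y k)).re = (y k - (-1) ^ k * c) ^ l) ∧
          ∑' k, wt y k * |(y k - (-1) ^ k * c) ^ l - y k ^ l| = mass l y ∧
          ∀ u : ℝ, 0 < u → (∀ k, u ≠ y k) →
            (G u).re = extr l y (fun k => |(y k - (-1) ^ k * c) ^ l - y k ^ l|) u) ∧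
      (∃ c : ℝ, 0 < c ∧ IsLeast {a | ∃ G, TypeOne G ∧ Near (psi l) G a 0} c ∧
        IsGreatest {a | 0 < a ∧ ∃ y, Adm l y ∧ a ≤ y 0 ∧
          ∑' k, wt y k * (y k * |(y k - (-1) ^ k * a) ^ l - y k ^ l|) ≤ mass (l + 1) y} c ∧
        ∃ (G : ℂ → ℂ) (y : ℕ → ℝ), TypeOne G ∧ Near (psi l) G c 0 ∧
          (∀ G', TypeOne G' → Near (psi l) G' c 0 → G' = G) ∧ Adm l y ∧ c ≤ y 0 ∧
          (∀ k, (G (y k)).re = (y k - (-1) ^ k * c) ^ l) ∧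
          ∑' k, wt y k * (y k * |(y k - (-1) ^ k * c) ^ l - y k ^ l|) = mass (l + 1) y ∧
          ∀ u : ℝ, 0 < u → (∀ k, u ≠ y k) → u * (G u).re =
            extr (l + 1) y (fun k => y k * |(y k - (-1) ^ k * c) ^ l - y k ^ l|) u) ∧
      (∃ c : ℝ, 0 < c ∧
        IsLeast {a | ∃ H, TypeOne H ∧ (∀ z, H (-z) = H z) ∧ NearSq l H a} c ∧
        IsGreatest {a | 0 < a ∧ ∃ y, Adm (2 * l - 2) y ∧ 2 * a ≤ y 0 ^ 2 ∧
          ∑' k, wt y k * |(y k ^ 2 - (-1) ^ k * (2 * a)) ^ l - y k ^ (2 * l)| ≤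
            mass (2 * l) y} c ∧
        ∃ (H : ℂ → ℂ) (y : ℕ → ℝ), TypeOne H ∧ (∀ z, H (-z) = H z) ∧ NearSq l H c ∧
          (∀ H', TypeOne H' → (∀ z, H' (-z) = H' z) → NearSq l H' c → H' = H) ∧
          Adm (2 * l - 2) y ∧ 2 * c ≤ y 0 ^ 2 ∧
          (∀ k, (H (y k)).re = (y k ^ 2 - (-1) ^ k * (2 * c)) ^ l) ∧
          ∑' k, wt y k * |(y k ^ 2 - (-1) ^ k * (2 * c)) ^ l - y k ^ (2 * l)| = mass (2 * l) y ∧
          ∀ u : ℝ, 0 < u → (∀ k, u ≠ y k) → (H u).re =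
            extr (2 * l) y (fun k => |(y k ^ 2 - (-1) ^ k * (2 * c)) ^ l - y k ^ (2 * l)|) u)) ∧
    ∀ α : ℝ, 0 < α →
      ∃ c : ℝ, 0 < c ∧ IsLeast {a | ∃ G, TypeOne G ∧ Near (phi 1) G a (a / α)} c ∧
        IsGreatest {a | ∃ y, Adm 0 y ∧ a = α * mass 1 y / ((1 + α) * ∑' k, wt y k + 1)} c ∧
        ∃ (G : ℂ → ℂ) (y : ℕ → ℝ), TypeOne G ∧ Near (phi 1) G c (c / α) ∧
          (∀ G', TypeOne G' → Near (phi 1) G' c (c / α) → G' = G) ∧ Adm 0 y ∧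
          (∀ k, (G (y k)).re = y k - (-1) ^ k * (c + c / α)) ∧
          c = α * mass 1 y / ((1 + α) * ∑' k, wt y k + 1) ∧
          ∀ u : ℝ, 0 < u → (∀ k, u ≠ y k) →
            (G u).re = c / α + extr 1 y (fun k => c + (1 + (-1) ^ k) * (c / α)) u :=
  ⟨fun _ h0 h1 => ⟨phi_dual h0 h1, psi_dual h0 h1, theta_dual h0 h1⟩, fun _ hα => abs_dual hα⟩

end Pool.Agent.Results.MP_7e6317_an.Duality
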