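import Pool.Agent.P.MP_7e6317_an.D.FinPhi
import Pool.Agent.P.MP_7e6317_an.D.FinPsi
import Pool.Agent.P.MP_7e6317_an.D.FinTheta
import Pool.Agent.P.MP_7e6317_an.D.FinAbs

namespace Pool.Agent.Results.MP_7e6317_an.Explicit

open Filter Topology Pool.Agent.P.MP_7e6317_an

theorem result :
    (∀ l : ℝ, 0 < l → l < 1 →
      (∃ c : ℝ, 0 < c ∧
        IsGreatest {a | 0 < a ∧ ∃ y, Adm (l - 1) y ∧ a ≤ y 0 ∧
          ∑' k, wt y k * |(y k - (-1) ^ k * a) ^ l - y k ^ l| ≤ mass l y} c ∧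
        ∀ α : ℝ, 0 < α →
          Tendsto (fun n : ℕ => bestE n α (phi l) / (c / (α * n))) atTop (𝓝 1)) ∧
      (∃ c : ℝ, 0 < c ∧
        IsGreatest {a | 0 < a ∧ ∃ y, Adm l y ∧ a ≤ y 0 ∧
          ∑' k, wt y k * (y k * |(y k - (-1) ^ k * a) ^ l - y k ^ l|) ≤ mass (l + 1) y} c ∧
        ∀ α : ℝ, 0 < α →
          Tendsto (fun n : ℕ => bestE n α (psi l) / (c / (α * n))) atTop (𝓝 1)) ∧
      (∃ c : ℝ, 0 < c ∧
        IsGreatest {a | 0 < a ∧ ∃ y, Adm (2 * l - 2) y ∧ 2 * a ≤ y 0 ^ 2 ∧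
          ∑' k, wt y k * |(y k ^ 2 - (-1) ^ k * (2 * a)) ^ l - y k ^ (2 * l)| ≤
            mass (2 * l) y} c ∧
        ∀ α : ℝ, 0 < α →
          Tendsto (fun n : ℕ => bestE n α (theta l) / (c / (α * (n : ℝ) ^ 2))) atTop (𝓝 1))) ∧
    ∀ α : ℝ, 0 < α → ∃ c : ℝ, 0 < c ∧
      IsGreatest {a | ∃ y, Adm 0 y ∧ a = α * mass 1 y / ((1 + α) * ∑' k, wt y k + 1)} c ∧
      Tendsto (fun n : ℕ => bestE n α (phi 1) / (c / (α * n))) atTop (𝓝 1) := by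
  refine ⟨fun l h0 h1 => ⟨?_, ?_, ?_⟩, fun α hα => ?_⟩
  · obtain ⟨c, p1, p2, p3, -⟩ := phi_dual h0 h1
    refine ⟨c, p1, p3, fun α hα => ?_⟩
    obtain ⟨c', -, q2, q3⟩ := phi_limit h0 h1 hα
    exact ratio p1 (q2.unique p2 ▸ q3)
  · obtain ⟨c, p1, p2, p3, -⟩ := psi_dual h0 h1
    refine ⟨c, p1, p3, fun α hα => ?_⟩
    obtain ⟨c', -, q2, q3⟩ := psi_limit h0 h1 hα
    exact ratio p1 (q2.unique p2 ▸ q3)
  · obtain ⟨c, p1, p2, p3, -⟩ := theta_dual h0 h1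
    refine ⟨c, p1, p3, fun α hα => ?_⟩
    obtain ⟨c', -, q2, q3⟩ := theta_limit h0 h1 hα
    exact ratio p1 (q2.unique p2 ▸ q3)
  · obtain ⟨c, p1, p2, p3, -⟩ := abs_dual hα
    obtain ⟨c', -, q2, q3⟩ := abs_limit hα
    exact ⟨c, p1, p3, ratio p1 (q2.unique p2 ▸ q3)⟩

end Pool.Agent.Results.MP_7e6317_an.Explicit
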